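import Pool.Agent.Q275.GQ.Stm

/-!
Job NC of project GQ (helper275): a trigonometric polynomial without constant term, not zero, is not
constant.
-/

set_option autoImplicit false

namespace Pool.Agent.Q154.GQ

open Pool.Agent.Q275.GQ Finset
open scoped Classical

lemma e_add (x y : ℝ) : e (x + y) = e x * e y := by
  unfold e
  rw [← Complex.exp_add]
  push_cast
  ring_nf

lemma e_zero : e 0 = 1 := by
  unfold e
  simp

/-- the character of `c` -/
noncomputable def chi (c : ℤ × ℤ) : Multiplicative (ℝ × ℝ) →* ℂ where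
  toFun τ := e (c.1 * (Multiplicative.toAdd τ).1 + c.2 * (Multiplicative.toAdd τ).2)
  map_one' := by
    simp [e_zero]
  map_mul' x y := by
    rw [← e_add]
    congr 1
    simp only [toAdd_mul, Prod.fst_add, Prod.snd_add]
    ring

lemma int_eq (a b : ℤ) (h : ∀ s : ℝ, e (a * s) = e (b * s)) : a = b := by
  by_contra hne
  have hd : ((a : ℝ) - b) ≠ 0 := sub_ne_zero.2 (by exact_mod_cast hne)
  have h1 := h (1 / (2 * (a - b)))
  have h2 : (a : ℝ) * (1 / (2 * (a - b))) = 1 / 2 + b * (1 / (2 * (a - b))) := by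
    field_simp
    ring
  rw [h2, e_add] at h1
  have h3 : e (b * (1 / (2 * (a - b)))) ≠ 0 := Complex.exp_ne_zero _
  have h4 : e (1 / 2) = 1 := mul_right_cancel₀ h3 (by rw [h1, one_mul])
  have h5 : e (1 / 2) = -1 := by
    unfold e
    rw [← Complex.exp_pi_mul_I]
    congr 1
    push_cast
    ring
  rw [h5] at h4
  norm_num at h4

lemma chi_inj : Function.Injective chi := by
  intro c c' h
  refine Prod.ext (int_eq _ _ fun s => ?_) (int_eq _ _ fun s => ?_)
  · have h1 := DFunLike.congr_fun h (Multiplicative.ofAdd ((s, 0) : ℝ × ℝ))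
    simpa [chi] using h1
  · have h1 := DFunLike.congr_fun h (Multiplicative.ofAdd ((0, s) : ℝ × ℝ))
    simpa [chi] using h1

theorem nc : S_NC := by
  intro C π hne h0
  by_contra hcon
  push Not at hcon
  obtain ⟨c, hc, hπ⟩ := hne
  have hli : LinearIndependent ℂ (fun c : ℤ × ℤ => (chi c : Multiplicative (ℝ × ℝ) → ℂ)) :=
    (linearIndependent_monoidHom (Multiplicative (ℝ × ℝ)) ℂ).comp chi chi_inj
  have key := linearIndependent_iff'.1 hli (insert (0, 0) C)
    (fun c => if c = (0, 0) then -∑ c ∈ C, (π c : ℂ) else (π c : ℂ)) ?_ c (mem_insert_of_mem hc)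
  · have hc0 : c ≠ (0, 0) := fun h => h0 (h ▸ hc)
    rw [if_neg hc0] at key
    exact hπ (by exact_mod_cast key)
  · rw [sum_insert h0]
    have h1 : ∑ x ∈ C, (if x = (0, 0) then -∑ c ∈ C, (π c : ℂ) else (π x : ℂ)) •
        (chi x : Multiplicative (ℝ × ℝ) → ℂ) =
        ∑ x ∈ C, (π x : ℂ) • (chi x : Multiplicative (ℝ × ℝ) → ℂ) := by
      refine sum_congr rfl fun x hx => ?_
      have hx0 : x ≠ (0, 0) := fun h => h0 (h ▸ hx)
      rw [if_neg hx0]
    rw [h1, if_pos rfl]
    funext τ
    have h2 := hcon (Multiplicative.toAdd τ).1 (Multiplicative.toAdd τ).2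
    simp only [Pi.add_apply, Pi.smul_apply, Finset.sum_apply, smul_eq_mul, Pi.zero_apply, chi,
      MonoidHom.coe_mk, OneHom.coe_mk]
    rw [h2]
    simp [e_zero]

end Pool.Agent.Q154.GQ
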